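import Pool.Agent.Q263.HS.Fin

/-!
# `Ω`-stable diffeomorphisms whose chain recurrent set is hyperbolic up to commuting actions

Project HS of helper263 with helpers 146, 176, 223 (and, for the modules of project HR, helpers
26, 150, 166, 239).  Definitions: `Pool/Agent/Q263/HS/Def.lean` (`IsHyp`, `IsCentreHyp`,
`ChainCovered`, `AxiomA`), `Pool/Agent/H728R2/OS/Defs.lean` (`Omega`, `Per`, `ChainRec`, `NoCycle`),
`Pool/Agent/TH80/OMS/Defs.lean` (`OmegaStable`), `Pool/Agent/H718R2/G0.lean` (`DiffM`, `strongTop`).
-/

set_option autoImplicit false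

open scoped Manifold ContDiff Topology
open Set Pool.Agent.H718R2.G Q263.HS

universe u

namespace Pool.Agent.Results.MP_814647_an.CentreHyperbolic

/-- Let `F` be an `Ω`-stable `C^r` diffeomorphism of the closed manifold `N`, `1 ≤ r ≤ ∞`.

1. No diffeomorphism `G` in a neighbourhood of `F` has a nonempty compact set `Λ`, `G(Λ) = Λ`, which is
   hyperbolic transversally to the orbits of a `C^r` action of some `ℝ^k`, `k ≥ 1`, which commutes with
   `G` and is locally free on `Λ`.
2. If the chain recurrent set of `F` is contained in the union of a hyperbolic set `Λ₀` and of any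
   family `S` of sets as in 1 (the actions may be different), then `F` satisfies Axiom A, has no
   cycles, and its chain recurrent set is its nonwandering set. -/
theorem result (n : ℕ) (N : Type u) [MetricSpace N] [CompactSpace N] [ChartedSpace (V n) N]
    [IsManifold (𝓡 n) ∞ N] (r : ℕ∞) (hr : 1 ≤ r) (F : DiffM n N r)
    (hF : Pool.Agent.TH80.OMS.OmegaStable n N r F) :
    (∃ U : Set (DiffM n N r), IsOpen[strongTop n N r] U ∧ F ∈ U ∧
      ∀ G ∈ U, ∀ Λ : Set N, IsCentreHyp (V n) r G.toHomeomorph Λ → Λ = ∅) ∧
    (ChainCovered (V n) r F.toHomeomorph →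
      AxiomA (V n) F.toHomeomorph ∧ Pool.Agent.H728R2.OS.NoCycle F.toHomeomorph ∧
      Pool.Agent.H728R2.OS.ChainRec F.toHomeomorph =
        Pool.Agent.H728R2.OS.Omega F.toHomeomorph) :=
  ⟨stable_no_centre hr hF, fun h => stable_axiomA hr hF h⟩

end Pool.Agent.Results.MP_814647_an.CentreHyperbolic
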