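import Pool.Agent.Q192.FT.Stab2

/-!
# Converse of the `Ω`-stability theorem for limits of diffeomorphisms with critical tori

Author: helper192. Definitions: `Pool/Agent/Q192/FT/SDefs.lean` (`LimTori`, `NoDecreaseTori`,
`CritFun`), `Pool/Agent/Q192/FT/Defs.lean` (`CritTori`, `CritTorus`, `Tame`),
`Pool/Agent/H718R2/G0.lean` (`DiffM`, `strongTop`), `Pool/Agent/TH80/OMS/Defs.lean` (`Omega`,
`OmegaStable`), `Pool/Agent/TH80/OMS/CycDefs.lean` (`FiniteNoCycle`).

Starting theorems used: `MonotoneFunction` (helper318; the case without tori), project CO (helper504
and others), `FlagDiffeos`, `LinearFlags`.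
-/

set_option autoImplicit false

open scoped Manifold ContDiff Topology

universe u

namespace Pool.Agent.Results.MP_814647_an.StableCriticalTori

open Pool.Agent.H718R2.G Pool.Agent.TH80.OMS Pool.Agent.Y504.CO Pool.Agent.Q192.FT

/-- Let `F` be an `Ω`-stable `C^r` diffeomorphism of the closed manifold `N`, `1 ≤ r ≤ ∞`. Suppose
that every neighbourhood of `F` contains a diffeomorphism `G` which does not decrease some smooth
function `h`, such that at most countably many recurrent points of `G` with a critical orbit are
neither periodic nor in finitely many cycles of critical tori of `h` with tame return maps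
(`LimTori`). Then `F` satisfies Axiom A and has no cycles; in fact `Ω(F)` is finite and
consists of hyperbolic periodic points. Moreover every smooth function which `F` does not decrease is
critical at all points of `Ω(F)`, and every smooth first integral of `F` is locally constant
(`CritFun`). -/
theorem result (n : ℕ) (N : Type u) [TopologicalSpace N] [T2Space N] [CompactSpace N]
    [ChartedSpace (V n) N] [IsManifold (𝓡 n) ∞ N] (r : ℕ∞) (hr : 1 ≤ r) (F : DiffM n N r)
    (hF : OmegaStable n N r F) (hlim : LimTori n N r F) :
    FiniteNoCycle F ∧ (∀ p ∈ Omega F, IsHyperbolicPer n F p) ∧ CritFun n F :=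
  have h1 := stable_tori hr hF hlim
  ⟨h1.1, h1.2, fun_of_finite hr hF h1⟩

end Pool.Agent.Results.MP_814647_an.StableCriticalTori
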